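import Pool.Agent.Q264.ColThreeMain
import Pool.Agent.Q264.ColEval

/-!
# The second nonzero binary digit of coloured binary partition numbers is bounded for `m = 3`
-/

set_option autoImplicit false

namespace Pool.Agent.Results.MP_96deef_nt.ThreeColours

open PowerSeries

/-- The power series `1 / (1 - x ^ j)` with natural number coefficients. -/
def geo (j : ℕ) : PowerSeries ℕ := PowerSeries.mk fun n => if j ∣ n then 1 else 0

/-- `S k m n` is the coefficient of `x ^ n` in `(1 - x) ^ (-m) * ∏_{j ≥ 0} (1 - x ^ (k ^ j)) ^ (-(k - 1) m)`;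
the factors with `j > n` have `k ^ j > n` and do not influence this coefficient. -/
noncomputable def S (k m n : ℕ) : ℕ :=
  coeff n (geo 1 ^ m * ∏ i ∈ Finset.range (n + 1), geo (k ^ i) ^ ((k - 1) * m))

/-- The part of `N` prime to `p`. -/
def unitPart (p N : ℕ) : ℕ := N / p ^ (padicValNat p N)

/-- `u m n` is the 2-adic valuation of `w - 1`, where `w` is the odd part of `S 2 m n`. -/
noncomputable def u (m n : ℕ) : ℕ∞ := emultiplicity 2 (unitPart 2 (S 2 m n) - 1)

/-- `v p m n` is the `p`-adic valuation of `w - r`, where `w` is the part of `S p m n` prime to `p` and `r` is its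
residue modulo `p`. -/
noncomputable def v (p m n : ℕ) : ℕ∞ := emultiplicity p (unitPart p (S p m n) - unitPart p (S p m n) % p)

theorem cast_S (n : ℕ) : (S 2 3 n : ℤ) = coeff n (Q264.ColThree.H ^ 3) := by
  have h : (S 2 3 n : ℤ) = coeff n (PowerSeries.map (Nat.castRingHom ℤ)
      (geo 1 ^ 3 * ∏ i ∈ Finset.range (n + 1), geo (2 ^ i) ^ ((2 - 1) * 3))) := by
    rw [coeff_map]; rfl
  have hg : ∀ j, PowerSeries.map (Nat.castRingHom ℤ) (geo j) = Q264.Quad.geo j := Q264.ColPart.map_geoN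
  rw [h, map_mul, map_pow, map_prod, hg, Q264.ColThree.H_cube]
  simp only [map_pow, hg]
  rfl

theorem u_three (n : ℕ) (hn : 1 ≤ n) : u 3 n = 1 ∨ u 3 n = 2 := by
  obtain ⟨a, w, h1, h2⟩ := Q264.ColThree.main n hn
  rw [← cast_S] at h1
  have hw : 0 < w := by
    by_contra hc
    push Not at hc
    have h3 : (2 : ℤ) ^ a * w ≤ 0 := mul_nonpos_of_nonneg_of_nonpos (by positivity) hc
    have h4 : w = 0 ∨ w < 0 := by omega
    rcases h4 with h4 | h4
    · omega
    · have h5 : (2 : ℤ) ^ a * w < 0 := mul_neg_of_pos_of_neg (by positivity) h4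
      omega
  obtain ⟨w', rfl⟩ := Int.eq_ofNat_of_zero_le hw.le
  have h3 : S 2 3 n = 2 ^ a * w' := by exact_mod_cast h1
  have h4 : w' % 8 = 3 ∨ w' % 8 = 5 ∨ w' % 8 = 7 := by omega
  have h5 : unitPart 2 (S 2 3 n) = w' := by
    unfold unitPart
    rw [h3, padicValNat.mul (by positivity) (by omega), padicValNat.prime_pow,
      padicValNat.eq_zero_of_not_dvd (by omega), add_zero]
    exact Nat.mul_div_cancel_left _ (by positivity)
  unfold u
  rw [h5]
  rcases h4 with h4 | h4 | h4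
  · left
    rw [show (1 : ℕ∞) = ((1 : ℕ) : ℕ∞) by rfl, emultiplicity_eq_coe]
    omega
  · right
    rw [show (2 : ℕ∞) = ((2 : ℕ) : ℕ∞) by rfl, emultiplicity_eq_coe]
    omega
  · left
    rw [show (1 : ℕ∞) = ((1 : ℕ) : ℕ∞) by rfl, emultiplicity_eq_coe]
    omega

/-- For `m = 3` the sequence `u m n`, `n ≥ 1`, takes only the values `1` and `2`; hence there is an `m` for which
one of the sequences of the question takes only finitely many values. -/
theorem result :
    (∀ n : ℕ, 1 ≤ n → u 3 n = 1 ∨ u 3 n = 2) ∧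
    ∃ m : ℕ, 1 ≤ m ∧ ({x | ∃ n : ℕ, 1 ≤ n ∧ x = u m n}.Finite ∨
      ∃ p : ℕ, p.Prime ∧ p ≠ 2 ∧ {x | ∃ n : ℕ, 1 ≤ n ∧ x = v p m n}.Finite) := by
  refine ⟨u_three, 3, by norm_num, Or.inl ?_⟩
  refine Set.Finite.subset (Set.toFinite {1, 2}) ?_
  rintro x ⟨n, hn, rfl⟩
  exact u_three n hn

end Pool.Agent.Results.MP_96deef_nt.ThreeColours
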